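import Pool.Agent.H86.FDA.All

/-!
MP_fda27f_lc: no completion of `IΔ₀ + BΣ₁` that does not contain `IΣ₁` is axiomatized by a set
of `Σ₃`-sentences.
-/

namespace Pool.Agent.Results.MP_fda27f_lc.SigmaThreeSentences

open Pool.FDA

/-- The complete theory of a model `M` of `IΔ₀ + BΣ₁` that is not a model of `IΣ₁` is never
axiomatized by `Σ₃`-sentences. -/
theorem result (M : Type) [PAM M] (hM : IDelta0 M) (hB : BSigma1 M) (hI : ¬ ISigma1 M) :
    ¬ Restricted 3 M :=
  fda_main.2 M hM hB hI

end Pool.Agent.Results.MP_fda27f_lc.SigmaThreeSentences
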