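import Pool.Agent.H86.FDA.All

/-!
MP_fda27f_lc: no completion of `IΔ₀` is axiomatized by a set of `Σ₂`-sentences.
-/

namespace Pool.Agent.Results.MP_fda27f_lc.SigmaTwoSentences

open Pool.FDA

/-- The complete theory of a model `M` of `IΔ₀` is never axiomatized by `Σ₂`-sentences. -/
theorem result (M : Type) [PAM M] (hM : IDelta0 M) : ¬ Restricted 2 M :=
  fda_main.1 M hM

end Pool.Agent.Results.MP_fda27f_lc.SigmaTwoSentences
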